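import Pool.Agent.Helper95.PN.Stmts
import Pool.Agent.Helper2.PW.STB
import Pool.Agent.Helper12.PM.PONM

/-!
# PN, row PGB: norm of the momentum operator of a Morawetz function
-/

set_option autoImplicit false

namespace Pool.Agent.Helper82.PN

open MeasureTheory Filter
open Pool.Agent.Helper95.PW Pool.Agent.Helper2.PW

theorem pgb_nr (y : R3) : nr y = ‖(WithLp.toLp 2 y : EuclideanSpace ℝ (Fin 3))‖ := by
  rw [EuclideanSpace.norm_eq]
  simp [nr, Fin.sum_univ_three, sq_abs]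

theorem pgb_tri (a b y : R3) : nr (a - b) ≤ nr (y - a) + nr (y - b) := by
  rw [pgb_nr, pgb_nr, pgb_nr]
  have h : (WithLp.toLp 2 (a - b) : EuclideanSpace ℝ (Fin 3)) =
      WithLp.toLp 2 (y - b) - WithLp.toLp 2 (y - a) := by
    ext i
    simp
  rw [h, add_comm]
  exact norm_sub_le _ _

theorem pgb_near {M : ℕ} (X : Fin M → R3) (d : ℝ) (hd : 0 < d) (hS : Sep X d) (y : R3) :
    near1 X d y ^ 2 = near2 X d y := by
  unfold near1 near2
  by_cases h : ∃ j, nr (y - X j) < d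
  · obtain ⟨j0, hj0⟩ := h
    have hz : ∀ j, j ≠ j0 → ¬ nr (y - X j) < d := by
      intro j hj hlt
      have h1 := hS j j0 hj
      have h2 := pgb_tri (X j) (X j0) y
      linarith
    rw [Finset.sum_eq_single j0, Finset.sum_eq_single j0, if_pos hj0, if_pos hj0]
    · rw [div_pow, one_pow]
    · intro j _ hj
      rw [if_neg (hz j hj)]
    · intro h; exact absurd (Finset.mem_univ _) h
    · intro j _ hj
      rw [if_neg (hz j hj)]
    · intro h; exact absurd (Finset.mem_univ _) h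
  · push Not at h
    rw [Finset.sum_eq_zero, Finset.sum_eq_zero]
    · norm_num
    · intro j _
      rw [if_neg (not_lt.2 (h j))]
    · intro j _
      rw [if_neg (not_lt.2 (h j))]

theorem pgb_near_nonneg {M : ℕ} (X : Fin M → R3) (d : ℝ) (y : R3) : 0 ≤ near2 X d y := by
  unfold near2
  refine Finset.sum_nonneg fun j _ => ?_
  split_ifs
  · positivity
  · exact le_rfl

theorem pgb_pt {n M : ℕ} (X : Fin M → R3) (d A : ℝ) (g : R3 → ℝ) (hd : 0 < d) (hS : Sep X d)
    (h1 : ∀ i y, |pd i g y| ≤ A)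
    (h2 : ∀ y, (∀ j, nr (y - X j) ≠ 0) → |lap g y| ≤ A * near1 X d y)
    (v : Cf n → ℝ) (x : Cf n) (hx : ∀ k j, nr (x k - X j) ≠ 0) :
    Pg g v x ^ 2 ≤ 6 * A ^ 2 * n * (∑ k, ∑ i, dv k i v x ^ 2) +
      A ^ 2 * n / 2 * ((∑ k, near2 X d (x k)) * v x ^ 2) := by
  have hk : ∀ k : Fin n, ((∑ i, pd i g (x k) * dv k i v x) + lap g (x k) / 2 * v x) ^ 2 ≤
      6 * A ^ 2 * (∑ i, dv k i v x ^ 2) + A ^ 2 / 2 * (near2 X d (x k) * v x ^ 2) := by
    intro k
    have a1 : (∑ i, pd i g (x k) * dv k i v x) ^ 2 ≤ 3 * A ^ 2 * ∑ i, dv k i v x ^ 2 := by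
      have b1 := sq_sum_le_card_mul_sum_sq (s := (Finset.univ : Finset (Fin 3)))
        (f := fun i => pd i g (x k) * dv k i v x)
      have b2 : ∑ i, (pd i g (x k) * dv k i v x) ^ 2 ≤ A ^ 2 * ∑ i, dv k i v x ^ 2 := by
        rw [Finset.mul_sum]
        refine Finset.sum_le_sum fun i _ => ?_
        rw [mul_pow]
        exact mul_le_mul_of_nonneg_right (sq_le_sq' (by linarith [(abs_le.1 (h1 i (x k))).1])
          (abs_le.1 (h1 i (x k))).2) (sq_nonneg _)
      have b3 : (((Finset.univ : Finset (Fin 3)).card : ℕ) : ℝ) = 3 := by simp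
      rw [b3] at b1
      calc (∑ i, pd i g (x k) * dv k i v x) ^ 2 ≤ 3 * ∑ i, (pd i g (x k) * dv k i v x) ^ 2 := b1
        _ ≤ 3 * (A ^ 2 * ∑ i, dv k i v x ^ 2) := by linarith
        _ = _ := by ring
    have a2 : lap g (x k) ^ 2 ≤ A ^ 2 * near2 X d (x k) := by
      rw [← pgb_near X d hd hS (x k), ← mul_pow]
      have h3 := h2 (x k) (hx k)
      exact sq_le_sq' (by linarith [(abs_le.1 h3).1]) (abs_le.1 h3).2
    have a3 : lap g (x k) ^ 2 * v x ^ 2 ≤ A ^ 2 * near2 X d (x k) * v x ^ 2 :=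
      mul_le_mul_of_nonneg_right a2 (sq_nonneg _)
    nlinarith [sq_nonneg ((∑ i, pd i g (x k) * dv k i v x) - lap g (x k) / 2 * v x)]
  have h4 := sq_sum_le_card_mul_sum_sq (s := (Finset.univ : Finset (Fin n)))
    (f := fun k => (∑ i, pd i g (x k) * dv k i v x) + lap g (x k) / 2 * v x)
  have h5 : (((Finset.univ : Finset (Fin n)).card : ℕ) : ℝ) = n := by simp
  rw [h5] at h4
  have h6 := Finset.sum_le_sum (s := (Finset.univ : Finset (Fin n))) fun k _ => hk k
  rw [Finset.sum_add_distrib, ← Finset.mul_sum, ← Finset.mul_sum, ← Finset.sum_mul] at h6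
  have hn : (0 : ℝ) ≤ n := Nat.cast_nonneg n
  unfold Pg
  calc _ ≤ (n : ℝ) * ∑ k, ((∑ i, pd i g (x k) * dv k i v x) + lap g (x k) / 2 * v x) ^ 2 := h4
    _ ≤ (n : ℝ) * (6 * A ^ 2 * (∑ k, ∑ i, dv k i v x ^ 2) +
        A ^ 2 / 2 * ((∑ k, near2 X d (x k)) * v x ^ 2)) := mul_le_mul_of_nonneg_left h6 hn
    _ = _ := by ring

theorem st_PGB (h1 : ST_HLOC) : ST_PGB := by
  obtain ⟨C, -, hH⟩ := h1
  intro n M X d A g u hd hS hA hg hg1 hg2 hu
  obtain ⟨hI, -⟩ := hH n M X d u hd hS hu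
  have hae : ∀ᵐ x : Cf n, ∀ k j, nr (x k - X j) ≠ 0 := by
    have h3 : ∀ᵐ x : Cf n, ∀ j, ∀ k, 0 < nr (x k - X j) :=
      ae_all_iff.2 fun j => Pool.Agent.Helper12.PM.ponm_ae n (X j)
    filter_upwards [h3] with x hx k j
    exact (hx j k).ne'
  have hi : ∀ s k i, Integrable (fun x => dv k i (u s) x ^ 2) := by
    intro s k i
    have h4 : Continuous (fun x => dv k i (u s) x ^ 2) := (stb_dv k i (hu s).1).continuous.pow 2
    refine h4.integrable_of_hasCompactSupport ?_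
    exact (stb_cs_dv k i (hu s).2).comp_left (g := fun t : ℝ => t ^ 2) (by norm_num)
  have hs : ∀ s, ∫ x, Pg g (u s) x ^ 2 ≤ 6 * A ^ 2 * n * (∑ k, ∑ i, ∫ x, dv k i (u s) x ^ 2) +
      A ^ 2 * n / 2 * ∫ x, (∑ k, near2 X d (x k)) * u s x ^ 2 := by
    intro s
    have i1 : Integrable (fun x => ∑ k, ∑ i, dv k i (u s) x ^ 2) :=
      integrable_finset_sum _ fun k _ => integrable_finset_sum _ fun i _ => hi s k i
    have i2 : Integrable (fun x => Pg g (u s) x ^ 2) := by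
      have h4 : Continuous (fun x => Pg g (u s) x ^ 2) := (stb_Pg hg (hu s).1).continuous.pow 2
      refine h4.integrable_of_hasCompactSupport ?_
      exact (stb_cs_Pg (hu s).2).comp_left (g := fun t : ℝ => t ^ 2) (by norm_num)
    have i3 : Integrable (fun x => 6 * A ^ 2 * n * (∑ k, ∑ i, dv k i (u s) x ^ 2) +
        A ^ 2 * n / 2 * ((∑ k, near2 X d (x k)) * u s x ^ 2)) :=
      (i1.const_mul _).add ((hI s).const_mul _)
    have h5 : ∫ x, Pg g (u s) x ^ 2 ≤ ∫ x, (6 * A ^ 2 * n * (∑ k, ∑ i, dv k i (u s) x ^ 2) +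
        A ^ 2 * n / 2 * ((∑ k, near2 X d (x k)) * u s x ^ 2)) := by
      refine integral_mono_ae i2 i3 ?_
      filter_upwards [hae] with x hx
      exact pgb_pt X d A g hd hS hg1 hg2 (u s) x hx
    rw [integral_add (i1.const_mul _) ((hI s).const_mul _), integral_const_mul,
      integral_const_mul, integral_finset_sum _ (fun k _ => integrable_finset_sum _
        fun i _ => hi s k i)] at h5
    have h6 : ∀ k : Fin n, ∫ x, ∑ i, dv k i (u s) x ^ 2 = ∑ i, ∫ x, dv k i (u s) x ^ 2 := fun k =>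
      integral_finset_sum _ fun i _ => hi s k i
    simp only [h6] at h5
    exact h5
  have hkin : ∑ s, ∑ k, ∑ i, ∫ x, dv k i (u s) x ^ 2 = kin u := by
    unfold kin Pool.Agent.Helper95.PW.sq
    rw [Finset.sum_comm]
    refine Finset.sum_congr rfl fun k _ => ?_
    rw [Finset.sum_comm]
  have hk0 : 0 ≤ kin u := by
    rw [← hkin]
    exact Finset.sum_nonneg fun s _ => Finset.sum_nonneg fun k _ => Finset.sum_nonneg fun i _ =>
      integral_nonneg fun x => sq_nonneg _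
  have ho0 : 0 ≤ one (near2 X d) u := by
    unfold one
    exact Finset.sum_nonneg fun s _ => integral_nonneg fun x => mul_nonneg
      (Finset.sum_nonneg fun k _ => pgb_near_nonneg X d (x k)) (sq_nonneg _)
  have h7 : Pool.Agent.Helper95.PW.sq (fun s => Pg g (u s)) ≤ 6 * A ^ 2 * n * kin u +
      A ^ 2 * n / 2 * one (near2 X d) u := by
    have h8 := Finset.sum_le_sum (s := (Finset.univ : Finset (Fin n → Fin 2))) fun s _ => hs s
    rw [Finset.sum_add_distrib, ← Finset.mul_sum, ← Finset.mul_sum, hkin] at h8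
    exact h8
  have hn : (0 : ℝ) ≤ n := Nat.cast_nonneg n
  have h9 : 0 ≤ A ^ 2 * n * kin u := by positivity
  have h10 : 0 ≤ A ^ 2 * n * one (near2 X d) u := by positivity
  nlinarith

end Pool.Agent.Helper82.PN
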